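import Pool.Agent.Lib.FRoots.NonVan

/-! The count. -/

namespace Pool.FRoots

open Finset

open scoped Nat

/-- primes `p ≤ x < p^2` dividing a nonzero `V` -/
def G (x : ℕ) (V : ℤ) : Finset ℕ :=
  if V = 0 then ∅ else (range (x + 1)).filter (fun p => p.Prime ∧ x < p ^ 2 ∧ (p : ℤ) ∣ V)

lemma mem_G {x p : ℕ} {V : ℤ} (hV : V ≠ 0) (hp : p.Prime) (hpx : p ≤ x) (hbig : x < p ^ 2)
    (hd : (p : ℤ) ∣ V) : p ∈ G x V := by
  unfold G
  rw [if_neg hV, mem_filter, mem_range]
  exact ⟨by omega, hp, hbig, hd⟩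

lemma G_card (x c : ℕ) (V : ℤ) (hx : 2 ≤ x) (hV : |V| ≤ (x : ℤ) ^ c) : (G x V).card ≤ 2 * c := by
  unfold G
  by_cases h0 : V = 0
  · rw [if_pos h0]; simp
  rw [if_neg h0]
  set s := (range (x + 1)).filter (fun p => p.Prime ∧ x < p ^ 2 ∧ (p : ℤ) ∣ V) with hs
  have h1 : (∏ p ∈ s, p) ∣ V.natAbs := by
    refine Finset.prod_primes_dvd _ (fun p hp => ?_) (fun p hp => ?_)
    · exact (mem_filter.1 hp).2.1.prime
    · exact Int.natCast_dvd.1 (mem_filter.1 hp).2.2.2
  have h2 : (∏ p ∈ s, p) ≤ V.natAbs := Nat.le_of_dvd (Int.natAbs_pos.2 h0) h1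
  have h3 : V.natAbs ≤ x ^ c := by
    have : ((V.natAbs : ℕ) : ℤ) ≤ ((x ^ c : ℕ) : ℤ) := by
      rw [Int.natCast_natAbs]; push_cast; exact hV
    exact_mod_cast this
  have h4 : x ^ s.card ≤ (∏ p ∈ s, p) ^ 2 := by
    rw [← Finset.prod_pow, ← Finset.prod_const]
    exact Finset.prod_le_prod' (fun p hp => (mem_filter.1 hp).2.2.1.le)
  have h5 : x ^ s.card ≤ x ^ (2 * c) := by
    calc x ^ s.card ≤ (∏ p ∈ s, p) ^ 2 := h4
      _ ≤ (x ^ c) ^ 2 := Nat.pow_le_pow_left (h2.trans h3) 2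
      _ = x ^ (2 * c) := by rw [← pow_mul, mul_comm]
  exact (Nat.pow_le_pow_iff_right (by omega)).1 h5

/-- small `n` -/
def U1 (x L : ℕ) : Finset ℕ :=
  (range (min L x + 1)).biUnion (fun n => G x ((n ! : ℤ) ^ 2 - 1))

/-- around `(p-1)/2` -/
def U2 (x L : ℕ) : Finset ℕ :=
  ((range (min L x + 1)) ×ˢ (({1, -1} : Finset ℤ) ×ˢ (univ : Finset Bool))).biUnion
    (fun t => G x (VV 2 2 1 t.2.1 t.2.2 t.1))

/-- around `(p-1)/b`, `b = 3, 4, 6`: exponent `m`, relation `(K!)^m s^e = u` -/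
noncomputable def UC (b m e : ℕ) (u : ℤ) (x M : ℕ) : Finset ℕ :=
  ((range (min M x + 1)) ×ˢ ((Icc (-(12 * (Nat.sqrt x : ℤ))) (12 * (Nat.sqrt x : ℤ))) ×ˢ
    (univ : Finset Bool))).biUnion (fun t => G x (VV b m (t.2.1 ^ e) u t.2.2 t.1))

lemma U1_card (x L : ℕ) (hx : 2 ≤ x) : (U1 x L).card ≤ (L + 1) * (432 * (L + 1)) := by
  unfold U1
  refine (Finset.card_biUnion_le_card_mul _ _ (432 * (L + 1)) (fun n hn => ?_)).trans ?_
  · have hn' : n ≤ min L x := by
      have := mem_range.1 hn; omega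
    have hnL : n ≤ L := hn'.trans (min_le_left _ _)
    have hnx : n ≤ x := hn'.trans (min_le_right _ _)
    have h := G_card x (2 * n) ((n ! : ℤ) ^ 2 - 1) hx ?_
    · refine h.trans ?_
      nlinarith
    · have h1 : (1 : ℤ) ≤ (n ! : ℤ) := by exact_mod_cast Nat.factorial_pos n
      have h2 : (n ! : ℤ) ≤ (x : ℤ) ^ n := by
        have : n ! ≤ x ^ n := (Nat.factorial_le_pow n).trans (Nat.pow_le_pow_left hnx n)
        exact_mod_cast this
      have h3 : (n ! : ℤ) ^ 2 ≤ (x : ℤ) ^ (2 * n) := by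
        rw [mul_comm 2 n, pow_mul]
        exact pow_le_pow_left₀ (by positivity) h2 2
      rw [abs_of_nonneg (by nlinarith)]
      linarith
  · rw [card_range]
    exact Nat.mul_le_mul_right _ (by omega)

lemma U2_card (x L : ℕ) (hx : 2 ≤ x) : (U2 x L).card ≤ ((L + 1) * 4) * (432 * (L + 1)) := by
  unfold U2
  refine (Finset.card_biUnion_le_card_mul _ _ (432 * (L + 1)) (fun t ht => ?_)).trans ?_
  · rw [mem_product, mem_product] at ht
    have hn' : t.1 ≤ min L x := by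
      have := mem_range.1 ht.1; omega
    have hnL : t.1 ≤ L := hn'.trans (min_le_left _ _)
    have hnx : t.1 ≤ x := hn'.trans (min_le_right _ _)
    have hu : |t.2.1| ≤ 1 := by
      have := ht.2.1
      simp only [mem_insert, mem_singleton] at this
      rcases this with h | h <;> rw [h] <;> norm_num
    have hx' : (2 : ℤ) ≤ x := by exact_mod_cast hx
    have h := G_card x _ _ hx (VV_le 2 2 x 1 t.2.1 t.2.2 t.1 hx (by norm_num) (by norm_num) hnx
      (by norm_num) (by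
        rw [abs_one]
        exact one_le_pow₀ (by linarith)) hu)
    refine h.trans ?_
    have : 2 * (216 * (t.1 + 1)) = 432 * (t.1 + 1) := by ring
    rw [this]
    exact Nat.mul_le_mul_left _ (by omega)
  · rw [card_product, card_product, card_range]
    have h2 : (({1, -1} : Finset ℤ)).card = 2 := by decide
    rw [h2]
    have h3 : (univ : Finset Bool).card = 2 := by decide
    rw [h3]
    exact Nat.mul_le_mul_right _ (Nat.mul_le_mul_right _ (by omega))

lemma UC_card (b m e : ℕ) (u : ℤ) (x M : ℕ) (hx : 2 ≤ x) (hb : 2 ≤ b) (hb6 : b ≤ 6)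
    (hm : m ≤ 36) (he : e ≤ 24) (hu : |u| ≤ 1) :
    (UC b m e u x M).card ≤ ((M + 1) * (50 * Nat.sqrt x)) * (432 * (M + 1)) := by
  unfold UC
  have hr1 : 1 ≤ Nat.sqrt x := by
    rw [Nat.le_sqrt]; omega
  refine (Finset.card_biUnion_le_card_mul _ _ (432 * (M + 1)) (fun t ht => ?_)).trans ?_
  · rw [mem_product, mem_product] at ht
    have hn' : t.1 ≤ min M x := by
      have := mem_range.1 ht.1; omega
    have hnL : t.1 ≤ M := hn'.trans (min_le_left _ _)
    have hnx : t.1 ≤ x := hn'.trans (min_le_right _ _)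
    have hs : |t.2.1| ≤ 12 * (x : ℤ) := by
      have h1 := mem_Icc.1 ht.2.1
      have h2 : (Nat.sqrt x : ℤ) ≤ x := by exact_mod_cast Nat.sqrt_le_self x
      rw [abs_le]
      constructor <;> linarith [h1.1, h1.2]
    have hx' : (2 : ℤ) ≤ x := by exact_mod_cast hx
    have hR : |t.2.1 ^ e| ≤ (12 * (x : ℤ)) ^ 24 := by
      rw [abs_pow]
      calc |t.2.1| ^ e ≤ (12 * (x : ℤ)) ^ e := pow_le_pow_left₀ (abs_nonneg _) hs e
        _ ≤ (12 * (x : ℤ)) ^ 24 := pow_le_pow_right₀ (by linarith) he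
    have h := G_card x _ _ hx (VV_le b m x (t.2.1 ^ e) u t.2.2 t.1 hx hb hb6 hnx hm hR hu)
    refine h.trans ?_
    have : 2 * (216 * (t.1 + 1)) = 432 * (t.1 + 1) := by ring
    rw [this]
    exact Nat.mul_le_mul_left _ (by omega)
  · rw [card_product, card_product, card_range, Int.card_Icc]
    have h3 : (univ : Finset Bool).card = 2 := by decide
    rw [h3]
    have h4 : (12 * (Nat.sqrt x : ℤ) + 1 - -(12 * (Nat.sqrt x : ℤ))).toNat = 24 * Nat.sqrt x + 1 := by
      omega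
    rw [h4]
    refine Nat.mul_le_mul_right _ (Nat.mul_le_mul (by omega) (by omega))

lemma abs_le_sqrt (x p : ℕ) (s : ℤ) (hx : 1 ≤ x) (hpx : p ≤ x) (hs : s ^ 2 ≤ 36 * p) :
    s ∈ Icc (-(12 * (Nat.sqrt x : ℤ))) (12 * (Nat.sqrt x : ℤ)) := by
  have hr1 : 1 ≤ Nat.sqrt x := by
    rw [Nat.le_sqrt]; omega
  have hr1' : (1 : ℤ) ≤ (Nat.sqrt x : ℤ) := by exact_mod_cast hr1
  have h1 : x < (Nat.sqrt x + 1) * (Nat.sqrt x + 1) := by
    have := Nat.lt_succ_sqrt x
    simpa using this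
  have h1' : (x : ℤ) < ((Nat.sqrt x : ℤ) + 1) * ((Nat.sqrt x : ℤ) + 1) := by exact_mod_cast h1
  have h2 : (p : ℤ) ≤ x := by exact_mod_cast hpx
  have h3 : s ^ 2 < (12 * (Nat.sqrt x : ℤ)) ^ 2 + 1 := by nlinarith
  have h4 : |s| ≤ |12 * (Nat.sqrt x : ℤ)| := sq_le_sq.1 (by linarith)
  rw [abs_of_nonneg (by linarith : (0 : ℤ) ≤ 12 * (Nat.sqrt x : ℤ))] at h4
  rw [mem_Icc]
  exact abs_le.1 h4

variable {p : ℕ} [Fact p.Prime]

lemma pow_even_one (a : ZMod p) (ha : a ^ 2 = 1) (m : ℕ) (hm : Even m) : a ^ m = 1 := by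
  obtain ⟨c, hc⟩ := hm
  have : m = 2 * c := by omega
  rw [this, pow_mul, ha, one_pow]

/-- a window of radius `M` around `K`, `p = bK+1` -/
lemma core_UC (b m e : ℕ) (u s : ℤ) (x M K n : ℕ) (hpx : p ≤ x) (hbig : x < p ^ 2)
    (hn : n < p) (hb : 2 ≤ b) (hp : p = b * K + 1) (hm : Even m)
    (hrel : ((K ! : ℕ) : ZMod p) ^ m * (((s ^ e : ℤ)) : ZMod p) = ((u : ℤ) : ZMod p))
    (hs : s ^ 2 ≤ 36 * p)
    (hne : ∀ dir j, VV b m (s ^ e) u dir j ≠ 0)
    (hroot : ((n ! : ℕ) : ZMod p) ^ 2 = 1)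
    (hwin : |(n : ℤ) - K| ≤ M) : p ∈ UC b m e u x M := by
  have hprime : p.Prime := Fact.out
  have hx1 : 1 ≤ x := hprime.one_lt.le.trans hpx
  unfold UC
  rw [mem_biUnion]
  have hKp : K < p := by
    rw [hp]; nlinarith
  by_cases h : K ≤ n
  · refine ⟨(n - K, (s, true)), ?_, ?_⟩
    · rw [mem_product, mem_product]
      refine ⟨?_, abs_le_sqrt x p s hx1 hpx hs, mem_univ _⟩
      rw [mem_range]
      have h1 : ((n - K : ℕ) : ℤ) = (n : ℤ) - K := by push_cast [Nat.cast_sub h]; ring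
      have h2 : n - K ≤ M := by
        have := abs_le.1 hwin
        omega
      have h3 : n - K ≤ x := by omega
      have := le_min h2 h3
      simp only
      omega
    · refine mem_G (hne _ _) hprime hpx hbig ?_
      refine dvd_up b m K (n - K) (s ^ e) u hp hrel ?_
      have h4 : K + (n - K) = n := by omega
      rw [h4]
      exact pow_even_one _ hroot m hm
  · push Not at h
    refine ⟨(K - n, (s, false)), ?_, ?_⟩
    · rw [mem_product, mem_product]
      refine ⟨?_, abs_le_sqrt x p s hx1 hpx hs, mem_univ _⟩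
      rw [mem_range]
      have h2 : K - n ≤ M := by
        have := abs_le.1 hwin
        omega
      have h3 : K - n ≤ x := by omega
      have := le_min h2 h3
      simp only
      omega
    · refine mem_G (hne _ _) hprime hpx hbig ?_
      refine dvd_down b m K (K - n) (s ^ e) u hp (by omega) hm hrel ?_
      have h4 : K - (K - n) = n := by omega
      rw [h4]
      exact pow_even_one _ hroot m hm

lemma core_U2 (x L K n : ℕ) (hpx : p ≤ x) (hbig : x < p ^ 2)
    (hn : n < p) (hp : p = 2 * K + 1) (hnK : n ≠ K)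
    (hroot : ((n ! : ℕ) : ZMod p) ^ 2 = 1)
    (hwin : |(n : ℤ) - K| ≤ L) : p ∈ U2 x L := by
  have hprime : p.Prime := Fact.out
  unfold U2
  rw [mem_biUnion]
  have hrel0 := rel2 (p := p) K hp
  obtain ⟨u, hu, hrel⟩ : ∃ u : ℤ, (u = 1 ∨ u = -1) ∧
      ((K ! : ℕ) : ZMod p) ^ 2 * (((1 : ℤ)) : ZMod p) = ((u : ℤ) : ZMod p) := by
    rcases neg_one_pow_eq_or ℤ (K + 1) with h | h
    · refine ⟨1, Or.inl rfl, ?_⟩
      rw [hrel0]
      have : ((-1 : ZMod p)) ^ (K + 1) = (((-1 : ℤ) ^ (K + 1) : ℤ) : ZMod p) := by push_cast; ring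
      rw [this, h]; simp
    · refine ⟨-1, Or.inr rfl, ?_⟩
      rw [hrel0]
      have : ((-1 : ZMod p)) ^ (K + 1) = (((-1 : ℤ) ^ (K + 1) : ℤ) : ZMod p) := by push_cast; ring
      rw [this, h]; simp
  have humem : u ∈ ({1, -1} : Finset ℤ) := by
    simp only [mem_insert, mem_singleton]; exact hu
  by_cases h : K ≤ n
  · refine ⟨(n - K, (u, true)), ?_, ?_⟩
    · rw [mem_product, mem_product]
      refine ⟨?_, humem, mem_univ _⟩
      rw [mem_range]
      have h2 : n - K ≤ L := by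
        have := abs_le.1 hwin
        omega
      have h3 : n - K ≤ x := by omega
      have := le_min h2 h3
      simp only
      omega
    · refine mem_G (VV2_ne u hu true (n - K) (by omega)) hprime hpx hbig ?_
      refine dvd_up 2 2 K (n - K) 1 u hp hrel ?_
      have h4 : K + (n - K) = n := by omega
      rw [h4]
      exact hroot
  · push Not at h
    refine ⟨(K - n, (u, false)), ?_, ?_⟩
    · rw [mem_product, mem_product]
      refine ⟨?_, humem, mem_univ _⟩
      rw [mem_range]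
      have h2 : K - n ≤ L := by
        have := abs_le.1 hwin
        omega
      have h3 : K - n ≤ x := by omega
      have := le_min h2 h3
      simp only
      omega
    · refine mem_G (VV2_ne u hu false (K - n) (by omega)) hprime hpx hbig ?_
      refine dvd_down 2 2 K (K - n) 1 u hp (by omega) (by norm_num) hrel ?_
      have h4 : K - (K - n) = n := by omega
      rw [h4]
      exact hroot

lemma core_U1 (x L n : ℕ) (hpx : p ≤ x) (hbig : x < p ^ 2)
    (hn : n < p) (hn2 : 2 ≤ n) (hroot : ((n ! : ℕ) : ZMod p) ^ 2 = 1)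
    (hwin : n ≤ L) : p ∈ U1 x L := by
  have hprime : p.Prime := Fact.out
  unfold U1
  rw [mem_biUnion]
  refine ⟨n, ?_, ?_⟩
  · rw [mem_range]
    have := le_min hwin (show n ≤ x by omega)
    omega
  · refine mem_G ?_ hprime hpx hbig ?_
    · have h1 : 2 ≤ n ! := by
        calc 2 = 2 ! := rfl
          _ ≤ n ! := Nat.factorial_le hn2
      have h2 : (2 : ℤ) ≤ (n ! : ℤ) := by exact_mod_cast h1
      intro h
      nlinarith
    · rw [← ZMod.intCast_zmod_eq_zero_iff_dvd]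
      push_cast
      rw [hroot]; ring

/-- all windows for one `n` -/
lemma core (x L M n : ℕ) (hpx : p ≤ x) (hbig : x < p ^ 2)
    (hn : n < p) (hn2 : 2 ≤ n) (hnK : 2 * n + 1 ≠ p) (hroot : ((n ! : ℕ) : ZMod p) ^ 2 = 1)
    (hwin : n ≤ L ∨ (∃ K, p = 2 * K + 1 ∧ |(n : ℤ) - K| ≤ L) ∨
      (∃ K, p = 3 * K + 1 ∧ |(n : ℤ) - K| ≤ M) ∨ (∃ K, p = 4 * K + 1 ∧ |(n : ℤ) - K| ≤ M) ∨
      (∃ K, p = 6 * K + 1 ∧ |(n : ℤ) - K| ≤ M)) :
    p ∈ U1 x L ∪ (U2 x L ∪ (UC 3 18 6 1 x M ∪ (UC 4 4 2 (-1) x M ∪ UC 6 36 24 1 x M))) := by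
  have hprime : p.Prime := Fact.out
  simp only [mem_union]
  rcases hwin with h | ⟨K, hp, h⟩ | ⟨K, hp, h⟩ | ⟨K, hp, h⟩ | ⟨K, hp, h⟩
  · exact Or.inl (core_U1 x L n hpx hbig hn hn2 hroot h)
  · exact Or.inr (Or.inl (core_U2 x L K n hpx hbig hn hp (by omega) hroot h))
  · right; right; left
    have hodd : p ≠ 2 := by omega
    have hpo := hprime.odd_of_ne_two hodd
    obtain ⟨c, hc⟩ := hpo
    have hk : ∃ k, K = 2 * k := ⟨K / 2, by omega⟩
    obtain ⟨k, hk⟩ := hk
    have hk0 : 0 < k := by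
      have := hprime.one_lt
      omega
    have hp6 : p = 6 * k + 1 := by omega
    refine core_UC 3 18 6 1 (S3 p) x M K n hpx hbig hn (by norm_num) hp (by decide)
      ?_ (S3_sq_le hodd) (fun dir j => VV3_ne _ (S3_even k hp6) dir j) hroot h
    rw [hk]
    have := rel3 (p := p) k hk0 hp6
    push_cast
    exact this
  · right; right; right; left
    have hK0 : 0 < K := by
      have := hprime.one_lt
      omega
    have hodd : p ≠ 2 := by omega
    refine core_UC 4 4 2 (-1) (T3 p) x M K n hpx hbig hn (by norm_num) hp (by decide)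
      ?_ ?_ (fun dir j => VV4_ne _ dir j) hroot h
    · have := rel4 (p := p) K hK0 hp
      push_cast
      exact this
    · have := T3_sq_le (p := p) hodd
      have hp0 : (0 : ℤ) ≤ p := by positivity
      linarith
  · right; right; right; right
    have hK0 : 0 < K := by
      have := hprime.one_lt
      omega
    have hodd : p ≠ 2 := by omega
    refine core_UC 6 36 24 1 (S3 p) x M K n hpx hbig hn (by norm_num) hp (by decide)
      ?_ (S3_sq_le hodd) (fun dir j => VV6_ne _ (S3_even K hp) dir j) hroot h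
    have := rel6 (p := p) K hK0 hp
    push_cast
    exact this

end Pool.FRoots
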