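import Pool.Agent.Lib.FRoots.Sum

/-! Factorials modulo `p` at `(p-1)/b`, `b = 2, 3, 4, 6`. -/

namespace Pool.FRoots

open Finset

open scoped Nat

variable {p : ℕ} [Fact p.Prime]

/-- power sums -/
lemma power_sum (n : ℕ) :
    ∑ x : ZMod p, x ^ n = if (n ≠ 0 ∧ p - 1 ∣ n) then -1 else 0 := by
  classical
  have h1 := FiniteField.sum_pow_units (ZMod p) n
  rw [ZMod.card p] at h1
  by_cases hn : n = 0
  · subst hn
    simp
  · have h2 : ∑ x : ZMod p, x ^ n = ∑ x : (ZMod p)ˣ, ((x : ZMod p) ^ n) := by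
      have h3 : ∑ x : ZMod p, x ^ n = ∑ x ∈ univ.filter (fun x : ZMod p => x ≠ 0), x ^ n := by
        rw [Finset.sum_filter]
        refine Finset.sum_congr rfl (fun x _ => ?_)
        by_cases hx : x = 0
        · simp [hx, hn]
        · simp [hx]
      rw [h3]
      symm
      refine Finset.sum_bij' (fun u _ => (u : ZMod p)) (fun x hx => Units.mk0 x (by simpa using hx))
        ?_ ?_ ?_ ?_ ?_
      · intro u _; simp
      · intro x _; simp
      · intro u _; ext; simp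
      · intro x _; simp
      · intro u _; rfl
    rw [h2]
    have h4 : (∑ x : (ZMod p)ˣ, ((x : ZMod p) ^ n)) = ∑ x : (ZMod p)ˣ, ((x ^ n : (ZMod p)ˣ) : ZMod p) := by
      refine Finset.sum_congr rfl (fun x _ => by simp)
    rw [h4]
    simp only [ne_eq, hn, not_false_eq_true, true_and]
    rw [← h4]
    exact h1

/-- the square class character is a power -/
lemma chi_eq_pow (h : ℕ) (hp : p = 2 * h + 1) (a : ZMod p) :
    ((quadraticChar (ZMod p) a : ℤ) : ZMod p) = a ^ h := by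
  have hp2 : p ≠ 2 := by omega
  have h1 := quadraticChar_eq_pow_of_char_ne_two' (F := ZMod p) (ringChar_ne_two hp2) a
  rw [ZMod.card p] at h1
  have : p / 2 = h := by omega
  rw [this] at h1
  exact h1

theorem S3_mod (k : ℕ) (hk : 0 < k) (hp : p = 6 * k + 1) :
    ((S3 p : ℤ) : ZMod p) = - ((Nat.choose (3 * k) (2 * k) : ℕ) : ZMod p) := by
  classical
  unfold S3
  push_cast
  have h1 : ∀ x : ZMod p, ((quadraticChar (ZMod p) (x ^ 3 + 1) : ℤ) : ZMod p)
      = ∑ i ∈ range (3 * k + 1), (x ^ (3 * i)) * ((Nat.choose (3 * k) i : ℕ) : ZMod p) := by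
    intro x
    rw [chi_eq_pow (3 * k) (by omega), add_pow]
    refine Finset.sum_congr rfl (fun i _ => ?_)
    rw [one_pow, mul_one, ← pow_mul]
  simp_rw [h1]
  rw [Finset.sum_comm]
  simp_rw [← Finset.sum_mul, power_sum]
  rw [Finset.sum_eq_single (2 * k)]
  · rw [if_pos]
    · ring
    · refine ⟨by omega, ?_⟩
      have : p - 1 = 3 * (2 * k) := by omega
      rw [this]
  · intro i hi hne
    rw [if_neg, zero_mul]
    rintro ⟨h0, h2⟩
    have h3 : p - 1 = 3 * (2 * k) := by omega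
    rw [h3] at h2
    have h4 : 2 * k ∣ i := Nat.dvd_of_mul_dvd_mul_left (by norm_num) h2
    obtain ⟨c, hc⟩ := h4
    have hi' := Finset.mem_range.1 hi
    have hc1 : c = 0 ∨ c = 1 ∨ 2 ≤ c := by omega
    rcases hc1 with h | h | h
    · rw [h] at hc; omega
    · rw [h] at hc; omega
    · have : 2 * k * 2 ≤ 2 * k * c := Nat.mul_le_mul_left _ h
      omega
  · intro h
    exfalso; apply h
    rw [Finset.mem_range]; omega

theorem T3_mod (k : ℕ) (hk : 0 < k) (hp : p = 4 * k + 1) :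
    ((T3 p : ℤ) : ZMod p) = - ((-1) ^ k * ((Nat.choose (2 * k) k : ℕ) : ZMod p)) := by
  classical
  unfold T3
  push_cast
  have h1 : ∀ x : ZMod p, ((quadraticChar (ZMod p) (x ^ 3 - x) : ℤ) : ZMod p)
      = ∑ i ∈ range (2 * k + 1), (x ^ (2 * k + 2 * i)) *
        ((-1) ^ (2 * k - i) * ((Nat.choose (2 * k) i : ℕ) : ZMod p)) := by
    intro x
    have : x ^ 3 - x = x * (x ^ 2 + (-1)) := by ring
    rw [this, chi_eq_pow (2 * k) (by omega), mul_pow, add_pow, Finset.mul_sum]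
    refine Finset.sum_congr rfl (fun i _ => ?_)
    rw [← pow_mul, pow_add]
    ring
  simp_rw [h1]
  rw [Finset.sum_comm]
  simp_rw [← Finset.sum_mul, power_sum]
  rw [Finset.sum_eq_single k]
  · rw [if_pos]
    · have : 2 * k - k = k := by omega
      rw [this]; ring
    · refine ⟨by omega, ?_⟩
      have h4 : p - 1 = 2 * k + 2 * k := by omega
      rw [h4]
  · intro i hi hne
    rw [if_neg, zero_mul]
    rintro ⟨h0, c, hc⟩
    have h3 : p - 1 = 4 * k := by omega
    rw [h3] at hc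
    have hi' := Finset.mem_range.1 hi
    have hc1 : c = 0 ∨ c = 1 ∨ 2 ≤ c := by omega
    rcases hc1 with h | h | h
    · rw [h] at hc; omega
    · rw [h] at hc; omega
    · have : 4 * k * 2 ≤ 4 * k * c := Nat.mul_le_mul_left _ h
      omega
  · intro h
    exfalso; apply h
    rw [Finset.mem_range]; omega

/-- Wilson with a cut -/
theorem wilson_cut (n : ℕ) (hn : n + 1 ≤ p) :
    ((n ! : ℕ) : ZMod p) * (((p - 1 - n)! : ℕ) : ZMod p) = (-1) ^ (n + 1) := by
  induction n with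
  | zero =>
    have := ZMod.wilsons_lemma p
    simp [this]
  | succ n ih =>
    have ih' := ih (by omega)
    have h1 : p - 1 - n = (p - 1 - (n + 1)) + 1 := by omega
    rw [h1, Nat.factorial_succ] at ih'
    have h2 : (((p - 1 - (n + 1)) + 1 : ℕ) : ZMod p) = -((n : ZMod p) + 1) := by
      have h3 : (((p - 1 - (n + 1)) + 1 + (n + 1) : ℕ) : ZMod p) = 0 := by
        have : (p - 1 - (n + 1)) + 1 + (n + 1) = p := by omega
        rw [this]; simp
      push_cast at h3 ⊢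
      linear_combination h3
    rw [Nat.factorial_succ]
    rw [Nat.cast_mul, h2] at ih'
    rw [Nat.cast_mul, pow_succ]
    push_cast
    linear_combination -ih'

/-- duplication: `(2k)! (3k)! = 4^k k! (4k)!` mod `p = 6k+1` -/
theorem duplication (k : ℕ) (hp : p = 6 * k + 1) (m : ℕ) :
    (((2 * m)! : ℕ) : ZMod p) * (((3 * k)! : ℕ) : ZMod p)
      = 4 ^ m * ((m ! : ℕ) : ZMod p) * (((3 * k + m)! : ℕ) : ZMod p) := by
  have hp0 : ((6 * k + 1 : ℕ) : ZMod p) = 0 := by
    rw [← hp]; simp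
  push_cast at hp0
  induction m with
  | zero => simp
  | succ m ih =>
    have h1 : 2 * (m + 1) = (2 * m + 1) + 1 := by ring
    have h2 : 3 * k + (m + 1) = (3 * k + m) + 1 := by ring
    rw [h1, h2, Nat.factorial_succ, Nat.factorial_succ (2 * m), Nat.factorial_succ m,
      Nat.factorial_succ (3 * k + m)]
    push_cast at ih ⊢
    have h3 : (2 * (m : ZMod p) + 1) = 2 * (3 * (k : ZMod p) + m + 1) := by
      linear_combination -hp0
    rw [pow_succ]
    linear_combination (2 * (m : ZMod p) + 1 + 1) * (2 * (m : ZMod p) + 1) * ih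
      + (2 * (m : ZMod p) + 1 + 1) * (4 ^ m * ((m ! : ℕ) : ZMod p) * (((3 * k + m)! : ℕ) : ZMod p)) * h3

lemma fact_ne_zero (n : ℕ) (hn : n < p) : ((n ! : ℕ) : ZMod p) ≠ 0 := by
  intro h
  rw [ZMod.natCast_eq_zero_iff] at h
  have := (Nat.Prime.dvd_factorial (Fact.out (p := p.Prime))).1 h
  omega

theorem rel2 (k : ℕ) (hp : p = 2 * k + 1) :
    ((k ! : ℕ) : ZMod p) ^ 2 = (-1) ^ (k + 1) := by
  have h := wilson_cut (p := p) k (by omega)
  have : p - 1 - k = k := by omega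
  rw [this] at h
  rw [sq]; exact h

theorem rel4 (k : ℕ) (hk : 0 < k) (hp : p = 4 * k + 1) :
    ((k ! : ℕ) : ZMod p) ^ 4 * ((T3 p : ℤ) : ZMod p) ^ 2 = -1 := by
  have h1 := T3_mod (p := p) k hk hp
  have h2 := rel2 (p := p) (2 * k) (by omega)
  have h3 : (Nat.choose (2 * k) k) * k ! * k ! = (2 * k)! := by
    have := Nat.choose_mul_factorial_mul_factorial (show k ≤ 2 * k by omega)
    have h4 : 2 * k - k = k := by omega
    rw [h4] at this
    exact this
  have h5 : (((Nat.choose (2 * k) k : ℕ) : ZMod p)) * ((k ! : ℕ) : ZMod p) * ((k ! : ℕ) : ZMod p)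
      = (((2 * k)! : ℕ) : ZMod p) := by
    rw [← h3]; push_cast; ring
  have h6 : ((-1 : ZMod p) ^ k) ^ 2 = 1 := by
    rw [← pow_mul, mul_comm, pow_mul]; simp
  have h7 : (-1 : ZMod p) ^ (2 * k + 1) = -1 := by
    rw [pow_succ, pow_mul]; simp
  rw [h1]
  rw [h7] at h2
  calc ((k ! : ℕ) : ZMod p) ^ 4 * (-((-1) ^ k * ((Nat.choose (2 * k) k : ℕ) : ZMod p))) ^ 2
      = ((-1 : ZMod p) ^ k) ^ 2 * (((Nat.choose (2 * k) k : ℕ) : ZMod p) * ((k ! : ℕ) : ZMod p)
        * ((k ! : ℕ) : ZMod p)) ^ 2 := by ring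
    _ = -1 := by rw [h6, h5, h2]; ring

theorem rel6_base (k : ℕ) (hk : 0 < k) (hp : p = 6 * k + 1) :
    ((S3 p : ℤ) : ZMod p) * (((2 * k)! : ℕ) : ZMod p) ^ 3 = 4 ^ k ∧
    ((k ! : ℕ) : ZMod p) * 4 ^ k = - ((((2 * k)! : ℕ) : ZMod p) ^ 2 * (((3 * k)! : ℕ) : ZMod p)) := by
  have h1 := S3_mod (p := p) k hk hp
  have hD := duplication (p := p) k hp k
  have hW := wilson_cut (p := p) (2 * k) (by omega)
  have e1 : p - 1 - 2 * k = 3 * k + k := by omega
  rw [e1] at hW
  have h7 : (-1 : ZMod p) ^ (2 * k + 1) = -1 := by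
    rw [pow_succ, pow_mul]; simp
  rw [h7] at hW
  have hC : (((Nat.choose (3 * k) (2 * k) : ℕ) : ZMod p)) * (((2 * k)! : ℕ) : ZMod p)
      * ((k ! : ℕ) : ZMod p) = (((3 * k)! : ℕ) : ZMod p) := by
    have := Nat.choose_mul_factorial_mul_factorial (show 2 * k ≤ 3 * k by omega)
    have h4 : 3 * k - 2 * k = k := by omega
    rw [h4] at this
    rw [← this]; push_cast; ring
  have h3 : ((k ! : ℕ) : ZMod p) * 4 ^ k
      = - ((((2 * k)! : ℕ) : ZMod p) ^ 2 * (((3 * k)! : ℕ) : ZMod p)) := by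
    linear_combination (((2 * k)! : ℕ) : ZMod p) * hD + 4 ^ k * ((k ! : ℕ) : ZMod p) * hW
  refine ⟨?_, h3⟩
  have hne : (((3 * k)! : ℕ) : ZMod p) ≠ 0 := fact_ne_zero _ (by omega)
  apply mul_right_cancel₀ hne
  rw [h1]
  linear_combination (-(((Nat.choose (3 * k) (2 * k) : ℕ) : ZMod p)) * (((2 * k)! : ℕ) : ZMod p)) * h3
    + 4 ^ k * hC

end Pool.FRoots
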