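import Pool.Agent.Lib.FRoots.Count

/-! Assembly. -/

namespace Pool.FRoots

open Finset

open scoped Nat

/-- the bad primes -/
def Bad (x N M : ℕ) : Set ℕ :=
  {p : ℕ | p.Prime ∧ p ≤ x ∧ ∃ n : ℕ, 1 < n ∧ n + 2 < p ∧ 2 * n + 1 ≠ p ∧
      ((p : ℤ) ∣ (n ! : ℤ) + 1 ∨ (p : ℤ) ∣ (n ! : ℤ) - 1) ∧
      ((∃ b ∈ ({1, 2} : Finset ℕ), b ∣ p - 1 ∧ ∃ a : ℕ, a ≤ b ∧
          |(n : ℚ) - (a : ℚ) / b * (p - 1)| ≤ N) ∨
       (∃ b ∈ ({3, 4, 6} : Finset ℕ), b ∣ p - 1 ∧ ∃ a : ℕ, a ≤ b ∧
          |(n : ℚ) - (a : ℚ) / b * (p - 1)| ≤ M))}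

lemma to_int (n a b K p N : ℕ) (hb : 0 < b) (hp : p = b * K + 1)
    (h : |(n : ℚ) - (a : ℚ) / b * (p - 1)| ≤ N) : |(n : ℤ) - a * K| ≤ N := by
  have hb' : (b : ℚ) ≠ 0 := by positivity
  have h1 : (n : ℚ) - (a : ℚ) / b * (p - 1) = (((n : ℤ) - a * K : ℤ) : ℚ) := by
    rw [hp]; push_cast; field_simp; ring
  rw [h1] at h
  exact_mod_cast h

lemma mirror {p : ℕ} [Fact p.Prime] (n : ℕ) (hn : n + 1 ≤ p)
    (h : ((n ! : ℕ) : ZMod p) ^ 2 = 1) : (((p - 1 - n)! : ℕ) : ZMod p) ^ 2 = 1 := by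
  have h1 := wilson_cut (p := p) n hn
  have h2 : (((n ! : ℕ) : ZMod p) * (((p - 1 - n)! : ℕ) : ZMod p)) ^ 2 = 1 := by
    rw [h1, ← pow_mul, mul_comm, pow_mul]; simp
  rw [mul_pow, h, one_mul] at h2
  exact h2

lemma mirror_cast {p : ℕ} (n : ℕ) (hn : n + 2 < p) :
    ((p - 1 - n : ℕ) : ℤ) = (p : ℤ) - 1 - n := by omega

/-- reduction of a window `(a,b)` to the basic ones -/
lemma reduce {p : ℕ} [Fact p.Prime] (x L M n : ℕ) (hML : M ≤ L) (hpx : p ≤ x) (hbig : x < p ^ 2)
    (hn : n + 2 < p) (hn2 : 2 ≤ n) (hnK : 2 * n + 1 ≠ p) (hroot : ((n ! : ℕ) : ZMod p) ^ 2 = 1)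
    (hwin : (∃ b ∈ ({1, 2} : Finset ℕ), b ∣ p - 1 ∧ ∃ a : ℕ, a ≤ b ∧
          |(n : ℚ) - (a : ℚ) / b * (p - 1)| ≤ L) ∨
       (∃ b ∈ ({3, 4, 6} : Finset ℕ), b ∣ p - 1 ∧ ∃ a : ℕ, a ≤ b ∧
          |(n : ℚ) - (a : ℚ) / b * (p - 1)| ≤ M)) :
    p ∈ U1 x L ∪ (U2 x L ∪ (UC 3 18 6 1 x M ∪ (UC 4 4 2 (-1) x M ∪ UC 6 36 24 1 x M))) := by
  have hM : (M : ℤ) ≤ L := by exact_mod_cast hML
  have hc := mirror_cast (p := p) n (by clear hwin; omega)
  have hA := core (p := p) x L M n hpx hbig (by clear hwin; omega) hn2 hnK hroot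
  have hB := core (p := p) x L M (p - 1 - n) hpx hbig (by clear hwin hA; omega)
    (by clear hwin hA; omega) (by clear hwin hA; omega)
    (mirror n (by clear hwin hA; omega) hroot)
  rcases hwin with ⟨b, hb, ⟨K, hK⟩, a, hab, h⟩ | ⟨b, hb, ⟨K, hK⟩, a, hab, h⟩
  · have hp : p = b * K + 1 := by
      omega
    simp only [mem_insert, mem_singleton] at hb
    have hb0 : 0 < b := by omega
    have h' := to_int n a b K p L hb0 hp h
    have h2 := abs_le.1 h'
    rcases hb with hb | hb
    · subst hb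
      interval_cases a
      · apply hA; left; push_cast at h2; omega
      · apply hB; left; push_cast at h2; omega
    · subst hb
      interval_cases a
      · apply hA; left; push_cast at h2; omega
      · apply hA; right; left; exact ⟨K, hp, by rw [abs_le]; push_cast at h2; constructor <;> omega⟩
      · apply hB; left; push_cast at h2; omega
  · have hp : p = b * K + 1 := by
      omega
    simp only [mem_insert, mem_singleton] at hb
    have hb0 : 0 < b := by omega
    have h' := to_int n a b K p M hb0 hp h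
    have h2 := abs_le.1 h'
    rcases hb with hb | hb | hb
    · subst hb
      interval_cases a
      · apply hA; left; push_cast at h2; omega
      · apply hA; right; right; left
        exact ⟨K, hp, by rw [abs_le]; push_cast at h2; constructor <;> omega⟩
      · apply hB; right; right; left
        exact ⟨K, hp, by rw [abs_le]; push_cast at h2; constructor <;> omega⟩
      · apply hB; left; push_cast at h2; omega
    · subst hb
      interval_cases a
      · apply hA; left; push_cast at h2; omega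
      · apply hA; right; right; right; left
        exact ⟨K, hp, by rw [abs_le]; push_cast at h2; constructor <;> omega⟩
      · apply hA; right; left
        exact ⟨2 * K, by omega, by rw [abs_le]; push_cast at h2 ⊢; constructor <;> omega⟩
      · apply hB; right; right; right; left
        exact ⟨K, hp, by rw [abs_le]; push_cast at h2; constructor <;> omega⟩
      · apply hB; left; push_cast at h2; omega
    · subst hb
      interval_cases a
      · apply hA; left; push_cast at h2; omega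
      · apply hA; right; right; right; right
        exact ⟨K, hp, by rw [abs_le]; push_cast at h2; constructor <;> omega⟩
      · apply hA; right; right; left
        exact ⟨2 * K, by omega, by rw [abs_le]; push_cast at h2 ⊢; constructor <;> omega⟩
      · apply hA; right; left
        exact ⟨3 * K, by omega, by rw [abs_le]; push_cast at h2 ⊢; constructor <;> omega⟩
      · apply hB; right; right; left
        exact ⟨2 * K, by omega, by rw [abs_le]; push_cast at h2 ⊢; constructor <;> omega⟩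
      · apply hB; right; right; right; right
        exact ⟨K, hp, by rw [abs_le]; push_cast at h2; constructor <;> omega⟩
      · apply hB; left; push_cast at h2; omega

/-- the finite set that contains all bad primes -/
noncomputable def Cover (x L M : ℕ) : Finset ℕ :=
  range (Nat.sqrt x + 1) ∪
    (U1 x L ∪ (U2 x L ∪ (UC 3 18 6 1 x M ∪ (UC 4 4 2 (-1) x M ∪ UC 6 36 24 1 x M))))

lemma root_sq {p n : ℕ} [Fact p.Prime]
    (h : (p : ℤ) ∣ (n ! : ℤ) + 1 ∨ (p : ℤ) ∣ (n ! : ℤ) - 1) : ((n ! : ℕ) : ZMod p) ^ 2 = 1 := by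
  have h1 : ((((n ! : ℤ) + 1) * ((n ! : ℤ) - 1) : ℤ) : ZMod p) = 0 := by
    rw [ZMod.intCast_zmod_eq_zero_iff_dvd]
    rcases h with h | h
    · exact Dvd.dvd.mul_right h _
    · exact Dvd.dvd.mul_left h _
  push_cast at h1
  linear_combination h1

lemma bad_subset (x N M : ℕ) : Bad x N M ⊆ (Cover x (max N M) M : Set ℕ) := by
  rintro p ⟨hp, hpx, n, hn1, hn2, hnK, hroot, hwin⟩
  have : Fact p.Prime := ⟨hp⟩
  rw [Finset.mem_coe]
  unfold Cover
  rw [mem_union]
  by_cases hbig : x < p ^ 2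
  · right
    refine reduce x (max N M) M n (le_max_right _ _) hpx hbig hn2 hn1 hnK (root_sq hroot) ?_
    rcases hwin with ⟨b, hb, hd, a, hab, h⟩ | h
    · left
      refine ⟨b, hb, hd, a, hab, h.trans ?_⟩
      exact_mod_cast le_max_left N M
    · right; exact h
  · left
    rw [mem_range]
    push Not at hbig
    have : p ≤ Nat.sqrt x := by
      rw [Nat.le_sqrt]; nlinarith
    omega

lemma cover_card (x L M : ℕ) (hx : 2 ≤ x) :
    (Cover x L M).card ≤ (Nat.sqrt x + 1) + ((L + 1) * (432 * (L + 1)) +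
      (((L + 1) * 4) * (432 * (L + 1)) + 3 * (((M + 1) * (50 * Nat.sqrt x)) * (432 * (M + 1))))) := by
  unfold Cover
  have h1 := U1_card x L hx
  have h2 := U2_card x L hx
  have h3 := UC_card 3 18 6 1 x M hx (by norm_num) (by norm_num) (by norm_num) (by norm_num)
    (by norm_num)
  have h4 := UC_card 4 4 2 (-1) x M hx (by norm_num) (by norm_num) (by norm_num) (by norm_num)
    (by norm_num)
  have h6 := UC_card 6 36 24 1 x M hx (by norm_num) (by norm_num) (by norm_num) (by norm_num)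
    (by norm_num)
  have e1 := card_union_le (range (Nat.sqrt x + 1))
    (U1 x L ∪ (U2 x L ∪ (UC 3 18 6 1 x M ∪ (UC 4 4 2 (-1) x M ∪ UC 6 36 24 1 x M))))
  have e2 := card_union_le (U1 x L)
    (U2 x L ∪ (UC 3 18 6 1 x M ∪ (UC 4 4 2 (-1) x M ∪ UC 6 36 24 1 x M)))
  have e3 := card_union_le (U2 x L) (UC 3 18 6 1 x M ∪ (UC 4 4 2 (-1) x M ∪ UC 6 36 24 1 x M))
  have e4 := card_union_le (UC 3 18 6 1 x M) (UC 4 4 2 (-1) x M ∪ UC 6 36 24 1 x M)
  have e5 := card_union_le (UC 4 4 2 (-1) x M) (UC 6 36 24 1 x M)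
  rw [card_range] at e1
  omega

theorem bad_card (x N M : ℕ) (hx : 1 ≤ x) (hN : 1 ≤ N) (hM : 1 ≤ M) :
    (Bad x N M).ncard ≤ 300000 * (N ^ 2 + M ^ 2 * Nat.sqrt x) := by
  rcases Nat.lt_or_ge x 2 with h | h
  · have : Bad x N M = ∅ := by
      ext p
      simp only [Set.mem_empty_iff_false, iff_false]
      rintro ⟨hp, hpx, _⟩
      have := hp.two_le
      omega
    rw [this]; simp
  · have h1 : (Bad x N M).ncard ≤ (Cover x (max N M) M).card := by
      rw [← Set.ncard_coe_finset]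
      exact Set.ncard_le_ncard (bad_subset x N M) (Finset.finite_toSet _)
    refine h1.trans ((cover_card x (max N M) M h).trans ?_)
    have hr1 : 1 ≤ Nat.sqrt x := by
      rw [Nat.le_sqrt]; omega
    set r := Nat.sqrt x with hr
    have hL : (max N M) ^ 2 ≤ N ^ 2 + M ^ 2 := by
      rcases le_total N M with h | h
      · rw [max_eq_right h]; omega
      · rw [max_eq_left h]; omega
    have hL1 : 1 ≤ max N M := hN.trans (le_max_left _ _)
    have hM2 : M ^ 2 ≤ M ^ 2 * r := Nat.le_mul_of_pos_right _ hr1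
    have hrM : r ≤ M ^ 2 * r := Nat.le_mul_of_pos_left _ (by positivity)
    have a1 : (max N M + 1) * (432 * (max N M + 1)) ≤ 1728 * (max N M) ^ 2 := by nlinarith
    have a2 : (max N M + 1) * 4 * (432 * (max N M + 1)) ≤ 6912 * (max N M) ^ 2 := by nlinarith
    have a3 : (M + 1) * (50 * r) * (432 * (M + 1)) ≤ 86400 * (M ^ 2 * r) := by
      have : (M + 1) * (M + 1) ≤ 4 * M ^ 2 := by nlinarith
      calc (M + 1) * (50 * r) * (432 * (M + 1)) = 21600 * r * ((M + 1) * (M + 1)) := by ring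
        _ ≤ 21600 * r * (4 * M ^ 2) := Nat.mul_le_mul_left _ this
        _ = 86400 * (M ^ 2 * r) := by ring
    generalize M ^ 2 * r = Y at *
    generalize N ^ 2 = X at *
    generalize (max N M) ^ 2 = Z at *
    omega

end Pool.FRoots
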