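import Pool.Agent.Lib.FRoots.Window

/-! Non-vanishing and size of the numbers `VV`. -/

namespace Pool.FRoots

open Finset

lemma odd_prod (f : ℕ → ℤ) (j : ℕ) (h : ∀ i, Odd (f i)) : Odd (∏ i ∈ range j, f i) := by
  induction j with
  | zero => simp
  | succ j ih =>
    rw [Finset.prod_range_succ]
    exact ih.mul (h j)

lemma AA_odd (b j : ℕ) (hb : Even b) : Odd (AA b j) := by
  refine odd_prod _ j (fun i => ?_)
  have hb' : Even (b : ℤ) := by exact_mod_cast hb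
  exact (hb'.mul_right _).sub_odd odd_one

lemma BB_odd (b j : ℕ) (hb : Even b) : Odd (BB b j) := by
  refine odd_prod _ j (fun i => ?_)
  have hb' : Even (b : ℤ) := by exact_mod_cast hb
  exact (hb'.mul_right _).add_odd odd_one

lemma AA3_not_dvd (j : ℕ) : ¬ (3 : ℤ) ∣ AA 3 j := by
  unfold AA
  intro h
  have hp : Prime (3 : ℤ) := Int.prime_three
  obtain ⟨i, _, hi⟩ := hp.exists_mem_finset_dvd h
  push_cast at hi
  omega

lemma ne_of_odd_even {a b : ℤ} (ha : Odd a) (hb : Even b) : a ≠ b := by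
  intro h
  rw [h] at ha
  exact (Int.not_even_iff_odd.2 ha) hb

lemma VV2_ne (u : ℤ) (hu : u = 1 ∨ u = -1) (dir : Bool) (j : ℕ) (hj : 1 ≤ j) :
    VV 2 2 1 u dir j ≠ 0 := by
  have hu' : Odd u := by
    rcases hu with h | h
    · rw [h]; exact odd_one
    · rw [h]; exact odd_one.neg
  have hpow : Even ((((2 : ℕ) : ℤ) ^ j) ^ 2) := by
    have h1 : Even (((2 : ℕ) : ℤ) ^ j) := by
      rw [Int.even_pow]; exact ⟨by norm_num, by omega⟩
    rw [Int.even_pow]; exact ⟨h1, by norm_num⟩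
  unfold VV
  cases dir with
  | true =>
    simp only [if_true]
    intro h
    have h1 : u * (AA 2 j) ^ 2 = 1 * ((((2 : ℕ) : ℤ) ^ j) ^ 2) := by linarith
    refine ne_of_odd_even (hu'.mul ((AA_odd 2 j (by norm_num)).pow)) ?_ h1
    rw [one_mul]; exact hpow
  | false =>
    simp only [Bool.false_eq_true, if_false]
    intro h
    have h1 : 1 * (BB 2 j) ^ 2 = u * ((((2 : ℕ) : ℤ) ^ j) ^ 2) := by linarith
    refine ne_of_odd_even ?_ (hpow.mul_left _) h1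
    rw [one_mul]; exact (BB_odd 2 j (by norm_num)).pow

lemma VV3_ne (s : ℤ) (hs : Even s) (dir : Bool) (j : ℕ) :
    VV 3 18 (s ^ 6) 1 dir j ≠ 0 := by
  have hs6 : Even (s ^ 6) := by rw [Int.even_pow]; exact ⟨hs, by norm_num⟩
  have hodd : Odd ((((3 : ℕ) : ℤ) ^ j) ^ 18) := by
    refine Odd.pow (Odd.pow ?_)
    exact ⟨1, by norm_num⟩
  unfold VV
  cases dir with
  | true =>
    simp only [if_true]
    intro h
    have h1 : s ^ 6 * ((((3 : ℕ) : ℤ) ^ j) ^ 18) = (AA 3 j) ^ 18 := by linarith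
    rcases Nat.eq_zero_or_pos j with hj | hj
    · subst hj
      have h2 : AA 3 0 = 1 := by simp [AA]
      rw [h2] at h1
      simp at h1
      rw [h1] at hs6
      exact absurd hs6 (by norm_num)
    · have h3 : (3 : ℤ) ∣ (AA 3 j) ^ 18 := by
        rw [← h1]
        refine Dvd.dvd.mul_left ?_ _
        refine dvd_pow (dvd_pow ?_ (by omega)) (by norm_num)
        norm_num
      exact AA3_not_dvd j (Int.prime_three.dvd_of_dvd_pow h3)
  | false =>
    simp only [Bool.false_eq_true, if_false]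
    intro h
    have h1 : 1 * ((((3 : ℕ) : ℤ) ^ j) ^ 18) = s ^ 6 * (BB 3 j) ^ 18 := by linarith
    refine ne_of_odd_even ?_ (hs6.mul_right _) h1
    rw [one_mul]; exact hodd

lemma AA_pos (b j : ℕ) (hb : 2 ≤ b) : 0 < AA b j := by
  unfold AA
  refine Finset.prod_pos (fun i _ => ?_)
  have hb' : (2 : ℤ) ≤ b := by exact_mod_cast hb
  have hi : (0 : ℤ) ≤ i := by positivity
  nlinarith

lemma BB_pos (b j : ℕ) : 0 < BB b j := by
  unfold BB
  refine Finset.prod_pos (fun i _ => ?_)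
  positivity

lemma VV4_ne (s : ℤ) (dir : Bool) (j : ℕ) : VV 4 4 (s ^ 2) (-1) dir j ≠ 0 := by
  unfold VV
  cases dir with
  | true =>
    simp only [if_true]
    have h1 := pow_pos (AA_pos 4 j (by norm_num)) 4
    have h2 : 0 ≤ s ^ 2 * ((((4 : ℕ) : ℤ) ^ j) ^ 4) := by positivity
    intro h
    linarith
  | false =>
    simp only [Bool.false_eq_true, if_false]
    have h2 : 0 ≤ s ^ 2 * (BB 4 j) ^ 4 :=
      mul_nonneg (sq_nonneg _) (pow_pos (BB_pos 4 j) 4).le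
    have h3 : (0 : ℤ) < (((4 : ℕ) : ℤ) ^ j) ^ 4 := by positivity
    intro h
    linarith

lemma no_sq_216 (s : ℤ) : s ^ 2 ≠ 216 := by
  intro h
  have h1 : s ≤ 14 := by nlinarith
  have h2 : -14 ≤ s := by nlinarith
  interval_cases s <;> omega

lemma VV6_ne (s : ℤ) (hs : Even s) (dir : Bool) (j : ℕ) :
    VV 6 36 (s ^ 24) 1 dir j ≠ 0 := by
  have hs24 : Even (s ^ 24) := by rw [Int.even_pow]; exact ⟨hs, by norm_num⟩
  unfold VV
  cases dir with
  | true =>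
    simp only [if_true]
    intro h
    have h1 : (AA 6 j) ^ 36 = s ^ 24 * ((((6 : ℕ) : ℤ) ^ j) ^ 36) := by linarith
    exact ne_of_odd_even (AA_odd 6 j (by decide)).pow (hs24.mul_right _) h1
  | false =>
    simp only [Bool.false_eq_true, if_false]
    intro h
    have h1 : (s ^ 2 * (BB 6 j) ^ 3) ^ 12 = ((((6 : ℕ) : ℤ) ^ j) ^ 3) ^ 12 := by
      have e1 : (s ^ 2 * (BB 6 j) ^ 3) ^ 12 = s ^ 24 * (BB 6 j) ^ 36 := by ring
      have e2 : ((((6 : ℕ) : ℤ) ^ j) ^ 3) ^ 12 = (((6 : ℕ) : ℤ) ^ j) ^ 36 := by ring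
      rw [e1, e2]; linarith
    have h2 : s ^ 2 * (BB 6 j) ^ 3 = (((6 : ℕ) : ℤ) ^ j) ^ 3 :=
      (pow_left_inj₀ (mul_nonneg (sq_nonneg _) (pow_pos (BB_pos 6 j) 3).le) (by positivity)
        (by norm_num)).1 h1
    have hj : j = 0 ∨ j = 1 ∨ 2 ≤ j := by omega
    rcases hj with hj | hj | hj
    · subst hj
      have h3 : BB 6 0 = 1 := by simp [BB]
      rw [h3] at h2
      simp at h2
      rcases h2 with h2 | h2 <;> rw [h2] at hs <;> exact absurd hs (by decide)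
    · subst hj
      have h3 : BB 6 1 = 1 := by simp [BB]
      rw [h3] at h2
      norm_num at h2
      exact no_sq_216 s h2
    · have h4 : (7 : ℤ) ∣ BB 6 j := by
        unfold BB
        have := Finset.dvd_prod_of_mem (fun i : ℕ => ((6 : ℕ) : ℤ) * (i : ℤ) + 1)
          (Finset.mem_range.2 (show 1 < j by omega))
        norm_num at this ⊢
        exact this
      have h5 : (7 : ℤ) ∣ (((6 : ℕ) : ℤ) ^ j) ^ 3 := by
        rw [← h2]
        exact Dvd.dvd.mul_left (dvd_pow h4 (by norm_num)) _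
      have h7 : Prime (7 : ℤ) := by
        rw [Int.prime_iff_natAbs_prime]; norm_num
      have h6 := h7.dvd_of_dvd_pow (h7.dvd_of_dvd_pow h5)
      norm_num at h6

lemma prod_bound (f : ℕ → ℤ) (j : ℕ) (c : ℤ) (h0 : ∀ i, i < j → 0 ≤ f i)
    (h : ∀ i, i < j → f i ≤ c) : ∏ i ∈ range j, f i ≤ c ^ j := by
  calc ∏ i ∈ range j, f i ≤ ∏ _i ∈ range j, c :=
        Finset.prod_le_prod (fun i hi => h0 i (mem_range.1 hi)) (fun i hi => h i (mem_range.1 hi))
    _ = c ^ j := by simp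

lemma AA_le (b j x : ℕ) (hb : 2 ≤ b) (hb6 : b ≤ 6) (hj : j ≤ x) :
    AA b j ≤ (6 * (x : ℤ)) ^ j := by
  unfold AA
  have hb' : (2 : ℤ) ≤ b := by exact_mod_cast hb
  have hb6' : (b : ℤ) ≤ 6 := by exact_mod_cast hb6
  refine prod_bound _ j _ (fun i hi => ?_) (fun i hi => ?_)
  · have hi : (0 : ℤ) ≤ i := by positivity
    nlinarith
  · have hi' : (i : ℤ) + 1 ≤ x := by exact_mod_cast (show i + 1 ≤ x by omega)
    have hi0 : (0 : ℤ) ≤ (i : ℤ) + 1 := by positivity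
    nlinarith

lemma BB_le (b j x : ℕ) (hb : 2 ≤ b) (hb6 : b ≤ 6) (hj : j ≤ x) :
    BB b j ≤ (6 * (x : ℤ)) ^ j := by
  unfold BB
  have hb' : (2 : ℤ) ≤ b := by exact_mod_cast hb
  have hb6' : (b : ℤ) ≤ 6 := by exact_mod_cast hb6
  refine prod_bound _ j _ (fun i hi => by positivity) (fun i hi => ?_)
  have hi' : (i : ℤ) + 1 ≤ x := by exact_mod_cast (show i + 1 ≤ x by omega)
  have hi0 : (0 : ℤ) ≤ (i : ℤ) := by positivity
  nlinarith

/-- size of `VV` -/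
lemma VV_le (b m x : ℕ) (R u : ℤ) (dir : Bool) (j : ℕ) (hx : 2 ≤ x) (hb : 2 ≤ b) (hb6 : b ≤ 6)
    (hj : j ≤ x) (hm : m ≤ 36) (hR : |R| ≤ (12 * (x : ℤ)) ^ 24) (hu : |u| ≤ 1) :
    |VV b m R u dir j| ≤ (x : ℤ) ^ (216 * (j + 1)) := by
  have hx' : (2 : ℤ) ≤ x := by exact_mod_cast hx
  have hX1 : (1 : ℤ) ≤ 6 * x := by linarith
  have hX2 : (1 : ℤ) ≤ 12 * x := by linarith
  have hpow : ∀ E : ℤ, 0 ≤ E → E ≤ (6 * (x : ℤ)) ^ j → E ^ m ≤ (12 * (x : ℤ)) ^ (36 * j) := by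
    intro E h0 hE
    calc E ^ m ≤ ((6 * (x : ℤ)) ^ j) ^ m := pow_le_pow_left₀ h0 hE m
      _ = (6 * (x : ℤ)) ^ (j * m) := by rw [← pow_mul]
      _ ≤ (6 * (x : ℤ)) ^ (36 * j) := by
          refine pow_le_pow_right₀ hX1 ?_
          nlinarith
      _ ≤ (12 * (x : ℤ)) ^ (36 * j) := pow_le_pow_left₀ (by positivity) (by linarith) _
  have hbpow : ((b : ℤ) ^ j) ≤ (6 * (x : ℤ)) ^ j := by
    refine pow_le_pow_left₀ (by positivity) ?_ j
    have hb6' : (b : ℤ) ≤ 6 := by exact_mod_cast hb6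
    nlinarith
  have hgen : ∀ E1 E2 : ℤ, 0 ≤ E1 → E1 ≤ (6 * (x : ℤ)) ^ j → 0 ≤ E2 → E2 ≤ (6 * (x : ℤ)) ^ j →
      |R * E1 ^ m - u * E2 ^ m| ≤ (x : ℤ) ^ (216 * (j + 1)) := by
    intro E1 E2 h1 h2 h3 h4
    have e1 := hpow E1 h1 h2
    have e2 := hpow E2 h3 h4
    have p1 : (0 : ℤ) ≤ E1 ^ m := pow_nonneg h1 m
    have p2 : (0 : ℤ) ≤ E2 ^ m := pow_nonneg h3 m
    have q1 : |R * E1 ^ m| ≤ (12 * (x : ℤ)) ^ 24 * (12 * (x : ℤ)) ^ (36 * j) := by
      rw [abs_mul, abs_of_nonneg p1]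
      exact mul_le_mul hR e1 p1 (by positivity)
    have q2 : |u * E2 ^ m| ≤ (12 * (x : ℤ)) ^ (36 * j) := by
      rw [abs_mul, abs_of_nonneg p2]
      calc |u| * E2 ^ m ≤ 1 * E2 ^ m := mul_le_mul_of_nonneg_right hu p2
        _ ≤ _ := by rw [one_mul]; exact e2
    have q3 : (12 * (x : ℤ)) ^ 24 * (12 * (x : ℤ)) ^ (36 * j) ≤ (12 * (x : ℤ)) ^ (36 * (j + 1)) := by
      rw [← pow_add]
      exact pow_le_pow_right₀ hX2 (by omega)
    have q4 : (12 * (x : ℤ)) ^ (36 * j) ≤ (12 * (x : ℤ)) ^ (36 * (j + 1)) :=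
      pow_le_pow_right₀ hX2 (by omega)
    have q5 : |R * E1 ^ m - u * E2 ^ m| ≤ |R * E1 ^ m| + |u * E2 ^ m| := abs_sub _ _
    have q6 : 2 * (12 * (x : ℤ)) ^ (36 * (j + 1)) ≤ (24 * (x : ℤ)) ^ (36 * (j + 1)) := by
      have r1 : (24 * (x : ℤ)) = 2 * (12 * x) := by ring
      rw [r1, mul_pow 2]
      refine mul_le_mul_of_nonneg_right ?_ (by positivity)
      calc (2 : ℤ) = 2 ^ 1 := by norm_num
        _ ≤ 2 ^ (36 * (j + 1)) := pow_le_pow_right₀ (by norm_num) (by omega)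
    have q7 : (24 * (x : ℤ)) ^ (36 * (j + 1)) ≤ ((x : ℤ) ^ 6) ^ (36 * (j + 1)) := by
      refine pow_le_pow_left₀ (by positivity) ?_ _
      have r2 : (2 : ℤ) ^ 5 ≤ (x : ℤ) ^ 5 := pow_le_pow_left₀ (by norm_num) hx' 5
      have r3 : (x : ℤ) ^ 6 = x ^ 5 * x := by ring
      rw [r3]
      norm_num at r2
      nlinarith
    have q8 : ((x : ℤ) ^ 6) ^ (36 * (j + 1)) = (x : ℤ) ^ (216 * (j + 1)) := by
      rw [← pow_mul]; congr 1; ring
    rw [q8] at q7
    linarith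
  unfold VV
  cases dir with
  | true =>
    simp only [if_true]
    exact hgen _ _ (by positivity) hbpow (AA_pos b j hb).le (AA_le b j x hb hb6 hj)
  | false =>
    simp only [Bool.false_eq_true, if_false]
    exact hgen _ _ (BB_pos b j).le (BB_le b j x hb hb6 hj) (by positivity) hbpow

end Pool.FRoots
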