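import Mathlib

/-! Quadratic character sums of `x^3+1` and `x^3-x` over `ZMod p`. -/

namespace Pool.FRoots

open Finset

variable {p : ℕ} [Fact p.Prime]

/-- at most `n` solutions of `t^n = a` -/
lemma card_pow_eq_le (n : ℕ) (hn : 0 < n) (a : ZMod p) :
    (univ.filter (fun t : ZMod p => t ^ n = a)).card ≤ n := by
  classical
  have h : (univ.filter (fun t : ZMod p => t ^ n = a)) ⊆ (Polynomial.nthRoots n a).toFinset := by
    intro t ht
    simp only [mem_filter, mem_univ, true_and] at ht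
    rw [Multiset.mem_toFinset, Polynomial.mem_nthRoots hn]
    exact ht
  exact (card_le_card h).trans ((Multiset.toFinset_card_le _).trans (Polynomial.card_nthRoots n a))

lemma ringChar_ne_two (hp2 : p ≠ 2) : ringChar (ZMod p) ≠ 2 := by
  rw [ZMod.ringChar_zmod_n]; exact hp2

/-- the sum of `χ((a+u)(a+v))` for `u ≠ v` is `-1` -/
lemma sum_two (hp2 : p ≠ 2) (u v : ZMod p) (huv : u ≠ v) :
    ∑ a : ZMod p, quadraticChar (ZMod p) (u + a) * quadraticChar (ZMod p) (v + a) = -1 := by
  classical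
  have hd : v - u ≠ 0 := sub_ne_zero.2 (Ne.symm huv)
  -- shift
  have h1 : ∑ a : ZMod p, quadraticChar (ZMod p) (u + a) * quadraticChar (ZMod p) (v + a)
      = ∑ b : ZMod p, quadraticChar (ZMod p) b * quadraticChar (ZMod p) (b + (v - u)) := by
    refine Fintype.sum_equiv (Equiv.addLeft u) _ _ (fun a => ?_)
    simp only [Equiv.coe_addLeft]
    congr 2
    ring
  rw [h1]
  -- remove b = 0
  have h2 : ∑ b : ZMod p, quadraticChar (ZMod p) b * quadraticChar (ZMod p) (b + (v - u))
      = ∑ b ∈ univ.filter (fun b : ZMod p => b ≠ 0),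
        quadraticChar (ZMod p) (1 + (v - u) * b⁻¹) := by
    rw [Finset.sum_filter]
    refine Finset.sum_congr rfl (fun b _ => ?_)
    by_cases hb : b = 0
    · simp [hb]
    · rw [if_pos hb]
      have hh : b + (v - u) = b * (1 + (v - u) * b⁻¹) := by
        field_simp
      rw [hh, map_mul, ← mul_assoc, ← sq, quadraticChar_sq_one hb, one_mul]
  rw [h2]
  have h3 : ∑ b ∈ univ.filter (fun b : ZMod p => b ≠ 0),
        quadraticChar (ZMod p) (1 + (v - u) * b⁻¹)
      = ∑ c ∈ univ.filter (fun c : ZMod p => c ≠ 1), quadraticChar (ZMod p) c := by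
    refine Finset.sum_nbij' (fun b => 1 + (v - u) * b⁻¹) (fun c => (v - u) * (c - 1)⁻¹)
      ?_ ?_ ?_ ?_ ?_
    · intro b hb
      simp only [mem_filter, mem_univ, true_and] at hb ⊢
      intro h
      have : (v - u) * b⁻¹ = 0 := by linear_combination h
      rcases mul_eq_zero.1 this with h' | h'
      · exact hd h'
      · exact hb (inv_eq_zero.1 h')
    · intro c hc
      simp only [mem_filter, mem_univ, true_and] at hc ⊢
      exact mul_ne_zero hd (inv_ne_zero (sub_ne_zero.2 hc))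
    · intro b hb
      simp only [mem_filter, mem_univ, true_and] at hb
      have : (1 + (v - u) * b⁻¹ - 1) = (v - u) * b⁻¹ := by ring
      rw [this, mul_inv, inv_inv, ← mul_assoc, mul_inv_cancel₀ hd, one_mul]
    · intro c hc
      simp only [mem_filter, mem_univ, true_and] at hc
      have hc' : c - 1 ≠ 0 := sub_ne_zero.2 hc
      rw [mul_inv, inv_inv, ← mul_assoc, mul_inv_cancel₀ hd]
      ring
    · intro b _
      rfl
  rw [h3]
  have h4 := quadraticChar_sum_zero (F := ZMod p) (ringChar_ne_two hp2)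
  rw [← Finset.sum_filter_add_sum_filter_not univ (fun c : ZMod p => c ≠ 1)] at h4
  have h5 : univ.filter (fun c : ZMod p => ¬ (c ≠ 1)) = {1} := by
    ext c; simp
  rw [h5, Finset.sum_singleton, map_one] at h4
  linarith

lemma sum_one_sq (u : ZMod p) :
    ∑ a : ZMod p, quadraticChar (ZMod p) (u + a) * quadraticChar (ZMod p) (u + a)
      ≤ (p : ℤ) := by
  classical
  calc ∑ a : ZMod p, quadraticChar (ZMod p) (u + a) * quadraticChar (ZMod p) (u + a)
      ≤ ∑ _a : ZMod p, (1 : ℤ) := by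
        refine Finset.sum_le_sum (fun a _ => ?_)
        by_cases h : u + a = 0
        · rw [h]; simp
        · rw [← sq, quadraticChar_sq_one h]
    _ = p := by simp [ZMod.card]

lemma sum_one_sq_ge (u : ZMod p) :
    (p : ℤ) - 1 = ∑ a : ZMod p, quadraticChar (ZMod p) (u + a) * quadraticChar (ZMod p) (u + a)
       := by
  classical
  have h1 : ∑ a : ZMod p, quadraticChar (ZMod p) (u + a) * quadraticChar (ZMod p) (u + a)
      = ∑ b : ZMod p, (if b = 0 then 0 else (1 : ℤ)) := by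
    refine Fintype.sum_equiv (Equiv.addLeft u) _ _ (fun a => ?_)
    by_cases h : u + a = 0
    · simp [h]
    · have h' := quadraticChar_sq_one h
      rw [sq] at h'
      simp only [Equiv.coe_addLeft, h, if_false]
      exact h'
  rw [h1]
  have h2 : ∑ b : ZMod p, (if b = 0 then 0 else (1 : ℤ))
      = ∑ b : ZMod p, ((1 : ℤ) - if b = 0 then 1 else 0) := by
    refine Finset.sum_congr rfl (fun b _ => ?_)
    split_ifs <;> simp
  rw [h2, Finset.sum_sub_distrib]
  simp [ZMod.card]

/-- Second moment over all shifts. -/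
lemma second_moment (hp2 : p ≠ 2) (w : ZMod p → ℤ) (f : ZMod p → ZMod p) :
    ∑ a : ZMod p, (∑ x : ZMod p, w x * quadraticChar (ZMod p) (f x + a)) ^ 2
      = p * (∑ x : ZMod p, ∑ y : ZMod p, if f x = f y then w x * w y else 0)
        - (∑ x : ZMod p, w x) ^ 2 := by
  classical
  have h1 : ∀ a : ZMod p, (∑ x : ZMod p, w x * quadraticChar (ZMod p) (f x + a)) ^ 2
      = ∑ x : ZMod p, ∑ y : ZMod p, w x * w y *
        (quadraticChar (ZMod p) (f x + a) * quadraticChar (ZMod p) (f y + a)) := by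
    intro a
    rw [sq, Finset.sum_mul_sum]
    refine Finset.sum_congr rfl (fun x _ => Finset.sum_congr rfl (fun y _ => ?_))
    ring
  simp_rw [h1]
  rw [Finset.sum_comm]
  have h2 : ∀ x : ZMod p, ∑ a : ZMod p, ∑ y : ZMod p, w x * w y *
        (quadraticChar (ZMod p) (f x + a) * quadraticChar (ZMod p) (f y + a))
      = ∑ y : ZMod p, ((p : ℤ) * (if f x = f y then w x * w y else 0) - w x * w y) := by
    intro x
    rw [Finset.sum_comm]
    refine Finset.sum_congr rfl (fun y _ => ?_)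
    rw [← Finset.mul_sum]
    by_cases h : f x = f y
    · rw [if_pos h, h, ← sum_one_sq_ge]
      ring
    · rw [if_neg h, sum_two hp2 _ _ h]
      ring
  simp_rw [h2, Finset.sum_sub_distrib, ← Finset.mul_sum]
  rw [sq, Finset.sum_mul]

/-- If `F (t^m)` is constant for `t ≠ 0` then `(p-1) F(1)^2 ≤ m ∑ F(a)^2`. -/
lemma avg_bound (m : ℕ) (hm : 0 < m) (F : ZMod p → ℤ) (c : ZMod p) (hc : c ≠ 0)
    (hF : ∀ t : ZMod p, t ≠ 0 → F (c * t ^ m) = F c) :
    ((p : ℤ) - 1) * (F c) ^ 2 ≤ m * ∑ a : ZMod p, (F a) ^ 2 := by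
  classical
  have h1 : ∑ t ∈ univ.filter (fun t : ZMod p => t ≠ 0), (F (c * t ^ m)) ^ 2
      = ((p : ℤ) - 1) * (F c) ^ 2 := by
    rw [Finset.sum_congr rfl (g := fun _ => (F c) ^ 2)
      (fun t ht => by rw [hF t (by simpa using ht)])]
    rw [Finset.sum_const, nsmul_eq_mul]
    congr 1
    have : (univ.filter (fun t : ZMod p => t ≠ 0)).card = p - 1 := by
      have h := Finset.card_erase_of_mem (Finset.mem_univ (0 : ZMod p))
      rw [Finset.card_univ, ZMod.card] at h
      rw [← h]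
      congr 1
      ext t; simp
    rw [this, Nat.cast_sub (Fact.out (p := p.Prime)).one_lt.le]
    simp
  rw [← h1]
  have h2 : ∑ t ∈ univ.filter (fun t : ZMod p => t ≠ 0), (F (c * t ^ m)) ^ 2
      = ∑ a : ZMod p, ∑ t ∈ (univ.filter (fun t : ZMod p => t ≠ 0)).filter
          (fun t => c * t ^ m = a), (F (c * t ^ m)) ^ 2 :=
    (Finset.sum_fiberwise _ _ _).symm
  rw [h2, Finset.mul_sum]
  refine Finset.sum_le_sum (fun a _ => ?_)
  rw [Finset.sum_congr rfl (g := fun _ => (F a) ^ 2)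
    (fun t ht => by rw [(mem_filter.1 ht).2])]
  rw [Finset.sum_const, nsmul_eq_mul]
  refine mul_le_mul_of_nonneg_right ?_ (sq_nonneg _)
  have h3 : ((univ.filter (fun t : ZMod p => t ≠ 0)).filter (fun t => c * t ^ m = a)).card ≤ m := by
    refine (card_le_card ?_).trans (card_pow_eq_le m hm (c⁻¹ * a))
    intro t ht
    simp only [mem_filter, mem_univ, true_and] at ht ⊢
    rw [← ht.2, ← mul_assoc, inv_mul_cancel₀ hc, one_mul]
  exact_mod_cast h3

/-- number of pairs with equal powers -/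
lemma pairs_le (m : ℕ) (hm : 0 < m) (w : ZMod p → ℤ) (hw : ∀ x, |w x| ≤ 1) :
    (∑ x : ZMod p, ∑ y : ZMod p, if x ^ m = y ^ m then w x * w y else 0) ≤ m * p := by
  classical
  have h1 : ∀ x : ZMod p, (∑ y : ZMod p, if x ^ m = y ^ m then w x * w y else 0) ≤ m := by
    intro x
    rw [← Finset.sum_filter]
    calc ∑ y ∈ univ.filter (fun y : ZMod p => x ^ m = y ^ m), w x * w y
        ≤ ∑ _y ∈ univ.filter (fun y : ZMod p => x ^ m = y ^ m), (1 : ℤ) := by
          refine Finset.sum_le_sum (fun y _ => ?_)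
          have h := abs_mul (w x) (w y)
          have h' : |w x| * |w y| ≤ 1 * 1 :=
            mul_le_mul (hw x) (hw y) (abs_nonneg _) zero_le_one
          calc w x * w y ≤ |w x * w y| := le_abs_self _
            _ ≤ 1 := by rw [h]; simpa using h'
      _ = ((univ.filter (fun y : ZMod p => x ^ m = y ^ m)).card : ℤ) := by simp
      _ ≤ m := by
          have := card_pow_eq_le m hm (x ^ m)
          have h2 : (univ.filter (fun y : ZMod p => x ^ m = y ^ m))
              = (univ.filter (fun y : ZMod p => y ^ m = x ^ m)) := by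
            ext y; simp [eq_comm]
          rw [h2]
          exact_mod_cast this
  calc _ ≤ ∑ _x : ZMod p, (m : ℤ) := Finset.sum_le_sum (fun x _ => h1 x)
    _ = m * p := by simp [ZMod.card, mul_comm]

/-- the sum for `x^3+1` -/
noncomputable def S3 (p : ℕ) [Fact p.Prime] : ℤ := ∑ x : ZMod p, quadraticChar (ZMod p) (x ^ 3 + 1)

/-- the sum for `x^3-x` -/
noncomputable def T3 (p : ℕ) [Fact p.Prime] : ℤ := ∑ x : ZMod p, quadraticChar (ZMod p) (x ^ 3 - x)

lemma two_mul_sub_one_ge (p : ℕ) [Fact p.Prime] : (p : ℤ) ≤ 2 * ((p : ℤ) - 1) := by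
  have := (Fact.out (p := p.Prime)).two_le
  have h : (2 : ℤ) ≤ p := by exact_mod_cast this
  linarith

theorem S3_sq_le (hp2 : p ≠ 2) : (S3 p) ^ 2 ≤ 36 * p := by
  classical
  set F : ZMod p → ℤ := fun a => ∑ x : ZMod p, (1 : ℤ) * quadraticChar (ZMod p) (x ^ 3 + a) with hFdef
  have hF : ∀ t : ZMod p, t ≠ 0 → F (1 * t ^ 6) = F 1 := by
    intro t ht
    simp only [hFdef, one_mul]
    symm
    refine Fintype.sum_equiv (Equiv.mulLeft₀ (t ^ 2) (pow_ne_zero _ ht)) _ _ (fun x => ?_)
    simp only [Equiv.mulLeft₀_apply]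
    have : (t ^ 2 * x) ^ 3 + t ^ 6 = (t ^ 3) ^ 2 * (x ^ 3 + 1) := by ring
    rw [this, map_mul, map_pow, quadraticChar_sq_one (pow_ne_zero _ ht), one_mul]
  have h1 := avg_bound 6 (by norm_num) F 1 one_ne_zero hF
  have h2 := second_moment hp2 (fun _ => (1 : ℤ)) (fun x : ZMod p => x ^ 3)
  have h3 := pairs_le (p := p) 3 (by norm_num) (fun _ => (1 : ℤ)) (by simp)
  have hS : F 1 = S3 p := by simp [hFdef, S3]
  rw [hS] at h1
  have h4 : ∑ a : ZMod p, (F a) ^ 2 ≤ 3 * p * p := by
    have h5 : ∑ a : ZMod p, (F a) ^ 2 = p * (∑ x : ZMod p, ∑ y : ZMod p,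
        if x ^ 3 = y ^ 3 then (1 : ℤ) * 1 else 0) - (∑ x : ZMod p, (1 : ℤ)) ^ 2 := h2
    rw [h5]
    have hp0 : (0 : ℤ) ≤ p := by positivity
    have h6 := mul_le_mul_of_nonneg_left h3 hp0
    have h7 := sq_nonneg (∑ x : ZMod p, (1 : ℤ))
    generalize (∑ x : ZMod p, ∑ y : ZMod p, if x ^ 3 = y ^ 3 then (1 : ℤ) * 1 else 0) = Q at h6 ⊢
    push_cast at h6
    linarith
  have hp0 : (0 : ℤ) < p := by exact_mod_cast (Fact.out (p := p.Prime)).pos
  have h7 := two_mul_sub_one_ge p
  have h8 : (p : ℤ) * (S3 p) ^ 2 ≤ p * (36 * p) := by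
    have h9 := mul_le_mul_of_nonneg_right h7 (sq_nonneg (S3 p))
    push_cast at h1
    nlinarith
  exact le_of_mul_le_mul_left h8 hp0

theorem T3_sq_le (hp2 : p ≠ 2) : (T3 p) ^ 2 ≤ 16 * p := by
  classical
  set F : ZMod p → ℤ := fun a => ∑ x : ZMod p,
    (quadraticChar (ZMod p) x) * quadraticChar (ZMod p) (x ^ 2 + a) with hFdef
  have hF : ∀ t : ZMod p, t ≠ 0 → F (-1 * t ^ 4) = F (-1) := by
    intro t ht
    simp only [hFdef]
    symm
    refine Fintype.sum_equiv (Equiv.mulLeft₀ (t ^ 2) (pow_ne_zero _ ht)) _ _ (fun x => ?_)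
    simp only [Equiv.mulLeft₀_apply]
    have : (t ^ 2 * x) ^ 2 + -1 * t ^ 4 = (t ^ 2) ^ 2 * (x ^ 2 + -1) := by ring
    rw [this, map_mul, map_mul, map_pow (quadraticChar (ZMod p)) (t ^ 2) 2,
      quadraticChar_sq_one (pow_ne_zero _ ht), map_pow, quadraticChar_sq_one ht, one_mul, one_mul]
  have h1 := avg_bound 4 (by norm_num) F (-1) (neg_ne_zero.2 one_ne_zero) hF
  have h2 := second_moment hp2 (fun x => quadraticChar (ZMod p) x) (fun x : ZMod p => x ^ 2)
  have hw : ∀ x : ZMod p, |quadraticChar (ZMod p) x| ≤ 1 := by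
    intro x
    by_cases hx : x = 0
    · simp [hx]
    · rcases quadraticChar_dichotomy hx with h | h <;> rw [h] <;> simp
  have h3 := pairs_le (p := p) 2 (by norm_num) (fun x => quadraticChar (ZMod p) x) hw
  have hT : F (-1) = T3 p := by
    simp only [hFdef, T3]
    refine Finset.sum_congr rfl (fun x _ => ?_)
    rw [← map_mul]
    congr 1
    ring
  rw [hT] at h1
  have h4 : ∑ a : ZMod p, (F a) ^ 2 ≤ 2 * p * p := by
    have h5 : ∑ a : ZMod p, (F a) ^ 2 = p * (∑ x : ZMod p, ∑ y : ZMod p,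
        if x ^ 2 = y ^ 2 then quadraticChar (ZMod p) x * quadraticChar (ZMod p) y else 0)
        - (∑ x : ZMod p, quadraticChar (ZMod p) x) ^ 2 := h2
    rw [h5]
    have hp0 : (0 : ℤ) ≤ p := by positivity
    have h6 := mul_le_mul_of_nonneg_left h3 hp0
    push_cast at h6
    have h7 := sq_nonneg (∑ x : ZMod p, quadraticChar (ZMod p) x)
    linarith
  have hp0 : (0 : ℤ) < p := by exact_mod_cast (Fact.out (p := p.Prime)).pos
  have h7 := two_mul_sub_one_ge p
  have h8 : (p : ℤ) * (T3 p) ^ 2 ≤ p * (16 * p) := by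
    have h9 := mul_le_mul_of_nonneg_right h7 (sq_nonneg (T3 p))
    push_cast at h1
    nlinarith
  exact le_of_mul_le_mul_left h8 hp0

end Pool.FRoots
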