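import Pool.Agent.Lib.FRoots.Fact

/-! Windows around `(p-1)/b`: the divisibility conditions, their non-vanishing and size. -/

namespace Pool.FRoots

open Finset

open scoped Nat

variable {p : ℕ} [Fact p.Prime]

/-- cube roots of `-1`: three of them if `p = 1 mod 3` -/
lemma card_cube_neg_one (k : ℕ) (hp : p = 6 * k + 1) :
    (univ.filter (fun t : ZMod p => t ^ 3 = -1)).card = 3 := by
  classical
  obtain ⟨g, hg⟩ := IsCyclic.exists_generator (α := (ZMod p)ˣ)
  have hord : orderOf g = p - 1 := by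
    rw [orderOf_eq_card_of_forall_mem_zpowers hg, Nat.card_eq_fintype_card, ZMod.card_units]
  have hk : 0 < k := by
    rcases Nat.eq_zero_or_pos k with h | h
    · exfalso
      rw [h] at hp
      have := (Fact.out (p := p.Prime)).one_lt
      omega
    · exact h
  have hw3 : (g ^ (2 * k)) ^ 3 = 1 := by
    rw [← pow_mul]
    have : 2 * k * 3 = orderOf g := by rw [hord]; omega
    rw [this, pow_orderOf_eq_one]
  have hw1 : g ^ (2 * k) ≠ 1 := by
    intro h
    have h2 := orderOf_dvd_of_pow_eq_one h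
    rw [hord] at h2
    have := Nat.le_of_dvd (by omega) h2
    omega
  set w : ZMod p := ((g ^ (2 * k) : (ZMod p)ˣ) : ZMod p) with hwdef
  have hW3 : w ^ 3 = 1 := by
    rw [hwdef, ← Units.val_pow_eq_pow_val, hw3]; rfl
  have hW1 : w ≠ 1 := by
    intro h
    apply hw1
    ext
    rw [← hwdef, h]; rfl
  have hW0 : w ≠ 0 := Units.ne_zero _
  have hW2 : w ^ 2 ≠ 1 := by
    intro h
    apply hW1
    have : w ^ 3 = w * w ^ 2 := by ring
    rw [this, h, mul_one] at hW3
    exact hW3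
  have hW12 : w ^ 2 ≠ w := by
    intro h
    apply hW1
    have : w * (w - 1) = 0 := by linear_combination h
    rcases mul_eq_zero.1 this with h' | h'
    · exact absurd h' hW0
    · linear_combination h'
  apply le_antisymm (card_pow_eq_le 3 (by norm_num) (-1))
  have hsub : ({-1, -w, -w ^ 2} : Finset (ZMod p)) ⊆ univ.filter (fun t : ZMod p => t ^ 3 = -1) := by
    intro t ht
    simp only [mem_insert, mem_singleton] at ht
    simp only [mem_filter, mem_univ, true_and]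
    rcases ht with h | h | h
    · rw [h]; ring
    · rw [h]; linear_combination -hW3
    · rw [h]; linear_combination -(w ^ 3 + 1) * hW3
  refine le_trans ?_ (card_le_card hsub)
  rw [Finset.card_insert_of_notMem, Finset.card_insert_of_notMem, Finset.card_singleton]
  · simp only [mem_singleton, neg_inj]
    exact fun h => hW12 h.symm
  · simp only [mem_insert, mem_singleton, neg_inj, not_or]
    exact ⟨fun h => hW1 h.symm, fun h => hW2 h.symm⟩

theorem S3_even (k : ℕ) (hp : p = 6 * k + 1) : Even (S3 p) := by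
  classical
  have h1 : Even (S3 p - ∑ x : ZMod p, (quadraticChar (ZMod p) (x ^ 3 + 1)) ^ 2) := by
    unfold S3
    rw [← Finset.sum_sub_distrib]
    refine Finset.even_sum _ (fun x _ => ?_)
    have : quadraticChar (ZMod p) (x ^ 3 + 1) - (quadraticChar (ZMod p) (x ^ 3 + 1)) ^ 2
      = -((quadraticChar (ZMod p) (x ^ 3 + 1) - 1) * (quadraticChar (ZMod p) (x ^ 3 + 1))) := by ring
    rw [this]
    refine Even.neg ?_
    have := Int.even_mul_pred_self (quadraticChar (ZMod p) (x ^ 3 + 1))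
    rw [mul_comm] at this
    exact this
  have h2 : ∑ x : ZMod p, (quadraticChar (ZMod p) (x ^ 3 + 1)) ^ 2 = (p : ℤ) - 3 := by
    have h3 : ∀ x : ZMod p, (quadraticChar (ZMod p) (x ^ 3 + 1)) ^ 2
        = 1 - if x ^ 3 = -1 then 1 else 0 := by
      intro x
      by_cases h : x ^ 3 = -1
      · rw [if_pos h, h]; simp
      · rw [if_neg h, quadraticChar_sq_one]
        · ring
        · intro h'
          apply h
          linear_combination h'
    simp_rw [h3]
    rw [Finset.sum_sub_distrib]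
    rw [← Finset.sum_filter, Finset.sum_const, Finset.sum_const, card_cube_neg_one k hp]
    simp [ZMod.card]
  rw [h2] at h1
  have h4 : Even ((p : ℤ) - 3) := ⟨3 * (k : ℤ) - 1, by rw [hp]; push_cast; ring⟩
  have h5 := h1.add h4
  have h6 : S3 p - ((p : ℤ) - 3) + ((p : ℤ) - 3) = S3 p := by ring
  rw [h6] at h5
  exact h5

theorem rel3 (k : ℕ) (hk : 0 < k) (hp : p = 6 * k + 1) :
    (((2 * k)! : ℕ) : ZMod p) ^ 18 * ((S3 p : ℤ) : ZMod p) ^ 6 = 1 := by
  obtain ⟨h1, _⟩ := rel6_base (p := p) k hk hp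
  have h4 : (4 ^ k : ZMod p) ^ 3 = 1 := by
    have h2 : (2 : ZMod p) ≠ 0 := by
      have h3 : ((2 : ℕ) : ZMod p) ≠ 0 := by
        intro h
        rw [ZMod.natCast_eq_zero_iff] at h
        have := Nat.le_of_dvd (by norm_num) h
        omega
      exact_mod_cast h3
    have h3 := ZMod.pow_card_sub_one_eq_one h2
    have h5 : p - 1 = 2 * (k * 3) := by omega
    rw [h5, pow_mul] at h3
    rw [← pow_mul]
    norm_num at h3 ⊢
    exact h3
  calc (((2 * k)! : ℕ) : ZMod p) ^ 18 * ((S3 p : ℤ) : ZMod p) ^ 6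
      = ((((S3 p : ℤ) : ZMod p) * (((2 * k)! : ℕ) : ZMod p) ^ 3) ^ 3) ^ 2 := by ring
    _ = 1 := by rw [h1, h4]; ring

theorem rel6 (k : ℕ) (hk : 0 < k) (hp : p = 6 * k + 1) :
    ((k ! : ℕ) : ZMod p) ^ 36 * ((S3 p : ℤ) : ZMod p) ^ 24 = 1 := by
  obtain ⟨h1, h2⟩ := rel6_base (p := p) k hk hp
  have h3 := rel3 (p := p) k hk hp
  have h5 := rel2 (p := p) (3 * k) (by omega)
  have h4 : (4 ^ k : ZMod p) ^ 36 = 1 := by
    have h2 : (2 : ZMod p) ≠ 0 := by
      have h3 : ((2 : ℕ) : ZMod p) ≠ 0 := by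
        intro h
        rw [ZMod.natCast_eq_zero_iff] at h
        have := Nat.le_of_dvd (by norm_num) h
        omega
      exact_mod_cast h3
    have h3 := ZMod.pow_card_sub_one_eq_one h2
    have h5 : p - 1 = 2 * (k * 3) := by omega
    rw [h5, pow_mul] at h3
    have h6 : (4 ^ k : ZMod p) ^ 36 = ((4 : ZMod p) ^ (k * 3)) ^ 12 := by
      rw [← pow_mul, ← pow_mul]; congr 1; ring
    rw [h6]
    norm_num at h3 ⊢
    rw [h3]; ring
  have h6 : (((3 * k)! : ℕ) : ZMod p) ^ 4 = 1 := by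
    have : (((3 * k)! : ℕ) : ZMod p) ^ 4 = ((((3 * k)! : ℕ) : ZMod p) ^ 2) ^ 2 := by ring
    rw [this, h5, ← pow_mul, mul_comm, pow_mul]; simp
  calc ((k ! : ℕ) : ZMod p) ^ 36 * ((S3 p : ℤ) : ZMod p) ^ 24
      = (((k ! : ℕ) : ZMod p) * 4 ^ k) ^ 36 * ((S3 p : ℤ) : ZMod p) ^ 24 := by
        rw [mul_pow, h4, mul_one]
    _ = ((((3 * k)! : ℕ) : ZMod p) ^ 4) ^ 9 *
        ((((2 * k)! : ℕ) : ZMod p) ^ 18 * ((S3 p : ℤ) : ZMod p) ^ 6) ^ 4 := by
        rw [h2]; ring
    _ = 1 := by rw [h6, h3]; ring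

/-- `∏ (b i - 1)`, `i = 1..j` -/
def AA (b j : ℕ) : ℤ := ∏ i ∈ range j, ((b : ℤ) * (i + 1) - 1)

/-- `∏ (b i + 1)`, `i = 0..j-1` -/
def BB (b j : ℕ) : ℤ := ∏ i ∈ range j, ((b : ℤ) * i + 1)

theorem fact_up (b K j : ℕ) (hp : p = b * K + 1) :
    (b : ZMod p) ^ j * (((K + j)! : ℕ) : ZMod p) = ((K ! : ℕ) : ZMod p) * ((AA b j : ℤ) : ZMod p) := by
  have hp0 : ((b * K + 1 : ℕ) : ZMod p) = 0 := by
    rw [← hp]; simp
  push_cast at hp0
  induction j with
  | zero => simp [AA]
  | succ j ih =>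
    have h1 : K + (j + 1) = (K + j) + 1 := by ring
    have h2 : AA b (j + 1) = AA b j * ((b : ℤ) * (j + 1) - 1) := by
      unfold AA; rw [Finset.prod_range_succ]
    rw [h1, Nat.factorial_succ, h2, pow_succ]
    push_cast
    linear_combination (b : ZMod p) * ((K : ZMod p) + j + 1) * ih
      + (((K ! : ℕ) : ZMod p) * ((AA b j : ℤ) : ZMod p)) * hp0

theorem fact_down (b K j : ℕ) (hj : j ≤ K) (hp : p = b * K + 1) :
    (((K - j)! : ℕ) : ZMod p) * ((-1) ^ j * ((BB b j : ℤ) : ZMod p))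
      = (b : ZMod p) ^ j * ((K ! : ℕ) : ZMod p) := by
  have hp0 : ((b * K + 1 : ℕ) : ZMod p) = 0 := by
    rw [← hp]; simp
  push_cast at hp0
  induction j with
  | zero => simp [BB]
  | succ j ih =>
    have ih' := ih (by omega)
    have h1 : K - j = (K - (j + 1)) + 1 := by omega
    have h2 : BB b (j + 1) = BB b j * ((b : ℤ) * j + 1) := by
      unfold BB; rw [Finset.prod_range_succ]
    have h3 : (((K - (j + 1)) + 1 : ℕ) : ZMod p) = (K : ZMod p) - j := by
      have h4 : (((K - (j + 1)) + 1 + j : ℕ) : ZMod p) = (K : ZMod p) := by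
        have : (K - (j + 1)) + 1 + j = K := by omega
        rw [this]
      push_cast at h4 ⊢
      linear_combination h4
    rw [h1, Nat.factorial_succ, Nat.cast_mul, h3] at ih'
    rw [h2, pow_succ, pow_succ]
    push_cast
    linear_combination (b : ZMod p) * ih' - ((((K - (j + 1))! : ℕ) : ZMod p) * (-1) ^ j
      * ((BB b j : ℤ) : ZMod p)) * hp0

/-- the number attached to a window -/
def VV (b m : ℕ) (R u : ℤ) (dir : Bool) (j : ℕ) : ℤ :=
  if dir then R * ((b : ℤ) ^ j) ^ m - u * (AA b j) ^ m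
  else R * (BB b j) ^ m - u * ((b : ℤ) ^ j) ^ m

theorem dvd_up (b m K j : ℕ) (R u : ℤ) (hp : p = b * K + 1)
    (hrel : ((K ! : ℕ) : ZMod p) ^ m * ((R : ℤ) : ZMod p) = ((u : ℤ) : ZMod p))
    (hn : (((K + j)! : ℕ) : ZMod p) ^ m = 1) : (p : ℤ) ∣ VV b m R u true j := by
  rw [← ZMod.intCast_zmod_eq_zero_iff_dvd]
  have h := congrArg (fun t => t ^ m) (fact_up (p := p) b K j hp)
  simp only [mul_pow, hn, mul_one] at h
  simp only [VV, if_true]
  push_cast
  linear_combination ((R : ℤ) : ZMod p) * h + (((AA b j : ℤ) : ZMod p) ^ m) * hrel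

theorem dvd_down (b m K j : ℕ) (R u : ℤ) (hp : p = b * K + 1) (hj : j ≤ K) (hm : Even m)
    (hrel : ((K ! : ℕ) : ZMod p) ^ m * ((R : ℤ) : ZMod p) = ((u : ℤ) : ZMod p))
    (hn : (((K - j)! : ℕ) : ZMod p) ^ m = 1) : (p : ℤ) ∣ VV b m R u false j := by
  rw [← ZMod.intCast_zmod_eq_zero_iff_dvd]
  have h := congrArg (fun t => t ^ m) (fact_down (p := p) b K j hj hp)
  have h1 : ((-1 : ZMod p) ^ j) ^ m = 1 := by
    rw [← pow_mul, mul_comm, pow_mul, hm.neg_one_pow, one_pow]
  simp only [mul_pow, hn, one_mul, h1] at h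
  simp only [VV, Bool.false_eq_true, if_false]
  push_cast
  linear_combination ((R : ℤ) : ZMod p) * h + (((b : ZMod p) ^ j) ^ m) * hrel

end Pool.FRoots
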